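import Pool.Agent.Lib.MP_1611d4_co.Main

/-!
# Stacking all facets never turns a non-shellable complex into a vertex-decomposable one

Negative answer to the question of MP_1611d4_co, for all finite simplicial complexes and hence for
all triangulated spheres.
-/

set_option autoImplicit false

namespace Pool.Agent.Results.MP_1611d4_co.StackVDShellable

open Pool.Agent.Lib.MP_1611d4_co

/-- For every finite abstract simplicial complex `S` (in particular for every triangulated sphere
of every dimension): if the complex obtained by stacking all facets of `S` is
vertex-decomposable, then `S` is shellable. -/
theorem result :
    ∀ (V : Type) [DecidableEq V] (S : Cplx V),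
      S.stackAll.VertexDecomposable → S.Shellable := by
  intro V _ S h
  exact shellable_of_stackAll_vd S h

end Pool.Agent.Results.MP_1611d4_co.StackVDShellable
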